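import Pool.Agent.Lib.MP_1b70d9_co.Ins.Main

/-!
# Breadth first forests of bridged graphs
-/

set_option autoImplicit false

namespace Pool.Agent.Results.MP_1b70d9_co.BreadthFirstForest

universe u

/-- Bridged: every cycle of length at least 4 has two vertices which are closer in the graph
than along the cycle. -/
def Bridged {V : Type u} (G : SimpleGraph V) : Prop :=
  ∀ (u : V) (c : G.Walk u u), c.IsCycle → 4 ≤ c.length →
    ∃ i j : ℕ, i ≤ j ∧ j < c.length ∧
      G.dist (c.getVert i) (c.getVert j) < min (j - i) (c.length - (j - i))

/-- Let `G` be a bridged graph, finite or infinite, and let `r` choose a root in every component.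
There is a map `f` (the father map of a breadth first forest with these roots) such that every set
`F` of vertices, finite or infinite, which is closed under `f` induces a bridged subgraph in which
every vertex is joined to its root with the distance of `G`; and every finite set `S` lies in a
closed finite set with at most `sum (d (r v, v) + 1)` vertices, the sum over `v` in `S`. -/
theorem result {V : Type u} (G : SimpleGraph V) (hG : Bridged G) (r : V → V)
    (hr : ∀ v, G.Reachable (r v) v) (hr' : ∀ u v, G.Adj u v → r u = r v) :
    ∃ f : V → V, (∀ v, r v = v → f v = v) ∧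
      (∀ v, r v ≠ v → G.Adj v (f v) ∧ G.dist (r v) (f v) + 1 = G.dist (r v) v) ∧
      (∀ F : Set V, (∀ v ∈ F, f v ∈ F) → Bridged (G.induce F) ∧
        ∀ v : F, ∃ h : r v ∈ F, (G.induce F).Reachable ⟨r v, h⟩ v ∧
          (G.induce F).dist ⟨r v, h⟩ v = G.dist (r v) (v : V)) ∧
      ∀ S : Finset V, ∃ T : Finset V, S ⊆ T ∧ (∀ v ∈ T, f v ∈ T) ∧
        T.card ≤ ∑ v ∈ S, (G.dist (r v) v + 1) :=
  Pool.Agent.MP_1b70d9_co.Ins.main hG r hr hr'

end Pool.Agent.Results.MP_1b70d9_co.BreadthFirstForest
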